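import Pool.Agent.Helper55.RT.Kap
import Pool.Agent.Helper55.RT.Spec5

/-!
# BTC: the criterion for `p`-groups
-/

set_option autoImplicit false
set_option linter.all false

open Polynomial IsDedekindDomain
open scoped Classical

namespace Pool.Agent.Helper88.Thin.BTC

open Pool.Agent.TH115.GD Pool.Agent.Helper55.TT
open Pool.Agent.Helper55.UV (IsCo IsCoG IsInvt rH rH_inj rH_apply)
open Pool.Agent.Helper55.RG hiding em_inj VanishL VanishExt
open Pool.Agent.Helper55.RL
open Pool.Agent.Helper55.RT

variable {k k' K F : Type} [Field k] [CharZero k] [Field k'] [Algebra k k'] [Field K]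
    [Algebra k[X] K] [Field F] [Algebra k'[X] F] [IsFractionRing k'[X] F] [Algebra K F]

/-- the constants of `k` are in `K` -/
theorem em_mem_bot (hT : IsTower k k' K F) (a : k) :
    em k' F (Sep F) (C (algebraMap k k' a)) ∈ (⊥ : IntermediateField K (Sep F)) := by
  have h := algebraMap_mem (consts hT (⊥ : IntermediateField K (Sep F))) a
  exact (mem_consts hT _ _).1 h

theorem no_li {K Ω : Type} [Field K] [Field Ω] [Algebra K Ω] {f : Fin 2 → Ω}
    (h : LinearIndependent K f) {x : K} (h0 : f 0 = 1) (h1 : f 1 = algebraMap K Ω x) : False := by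
  rw [linearIndependent_iff'] at h
  have h4 := h Finset.univ ![-x, 1] (by
    rw [Fin.sum_univ_two, h0, h1]
    simp only [Matrix.cons_val_zero, Matrix.cons_val_one, one_smul]
    rw [Algebra.smul_def, mul_one, map_neg]
    exact neg_add_cancel _) 1 (Finset.mem_univ _)
  exact one_ne_zero h4

theorem consts_eq_bot (hT : IsTower k k' K F) :
    consts hT (⊥ : IntermediateField K (Sep F)) = ⊥ := by
  haveI := hT.fracK
  rw [eq_bot_iff]
  intro c hc
  rw [mem_consts] at hc
  rw [IntermediateField.mem_bot] at hc ⊢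
  by_contra hcon
  obtain ⟨x, hx⟩ := hc
  have hli : LinearIndependent k ![(1 : k'), c] := by
    rw [LinearIndependent.pair_iff]
    intro a b hab
    have hb : b = 0 := by
      by_contra hb
      apply hcon
      refine ⟨-(a / b), ?_⟩
      have h1 : algebraMap k k' b ≠ 0 := by
        rwa [Ne, map_eq_zero]
      rw [map_neg, map_div₀]
      rw [Algebra.smul_def, Algebra.smul_def, mul_one] at hab
      field_simp
      linear_combination -hab
    refine ⟨?_, hb⟩
    rw [hb, zero_smul, add_zero, Algebra.smul_def, mul_one, map_eq_zero] at hab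
    exact hab
  have h2 := lin_indep (F := F) hT hli
  refine no_li h2 (x := x) ?_ ?_
  · show em k' F (Sep F) (C (1 : k')) = 1
    rw [C_1, map_one]
  · exact hx.symm

theorem main (hDSL : P_DLP) (hKUM : P_KMP) (hCJ1 : S_CJ1) (hCJ2 : S_CJ2) (hCH1 : P_CP1)
    (hBOT : Q_BOT) : Q_BTC := by
  intro p hpf k k' K F _ _ _ _ _ _ _ _ _ _ hT hμ s π hs hπ hπs hind
  haveI := hT.sep
  haveI := hT.fracK
  haveI : IsAlgClosed k' := isAC (k := k)
  haveI : CharZero k' := charZero_of_injective_algebraMap (algebraMap k k').injective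
  haveI : IsSepClosure K (Sep F) := sepKΩ hT.map
  haveI : Algebra.IsSeparable K (Sep F) := IsSepClosure.separable
  haveI : IsGalois K (Sep F) := inferInstance
  have hbot := consts_eq_bot hT
  obtain ⟨b1, b2⟩ := hBOT p k k' (consts hT (⊥ : IntermediateField K (Sep F))) hbot π s
  haveI : FiniteDimensional k (consts hT (⊥ : IntermediateField K (Sep F))) := fin_consts hT _
  have hmu : ∀ e : k', e ^ p = 1 →
      em k' F (Sep F) (C e) ∈ (⊥ : IntermediateField K (Sep F)) := by
    intro e he
    obtain ⟨a, rfl⟩ := hμ e he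
    exact em_mem_bot hT a
  have hfix : ∀ (τ : Sep F ≃ₐ[K] Sep F), ∀ x ∈ (⊥ : IntermediateField K (Sep F)), τ x = x := by
    intro τ x hx
    obtain ⟨y, rfl⟩ := IntermediateField.mem_bot.1 hx
    exact τ.commutes y
  intro d ρ hρ hp2 hun hno c hc hloc
  refine crit_p (L := (⊥ : IntermediateField K (Sep F)))
    (L2 := (⊥ : IntermediateField K (Sep F))) hDSL hKUM hCJ1 hCJ2 hCH1 hT le_rfl hmu
    (s := s) hs ?_ ?_ (consts hT _) (mem_consts hT _) hπ (b1 hπ) (b2 hind) hπs ?_ hρ
    (fun σ hσ => hp2 σ fun x hx => hfix σ x hx)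
    (fun v hv => hun v hv) hno hc.cont (fun σ τ => hc.mul σ τ)
    (fun τ => by
      obtain ⟨y, hy⟩ := hc.fixed τ
      exact ⟨y, fun σ σ' h => hy σ σ' fun x => AlgEquiv.congr_fun h x⟩)
    (fun v hv => hloc.1 v hv) hloc.2
  · intro v hv ι σ hσ
    rw [IntermediateField.mem_fixingSubgroup_iff]
    intro x hx
    exact hfix _ x hx
  · intro y hy0 hy hyr τ hτ
    have h1 : (τ y) ^ p = y ^ p := by
      rw [← map_pow]
      exact hfix τ _ hy
    obtain ⟨e, he, h2⟩ := root_quot (k' := k') (F := F) hy0 h1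
    have h3 : y ^ (p - 1) * τ y = em k' F (Sep F) (C e) * y ^ p := by
      rw [h2]
      have h4 : y ^ p = y ^ (p - 1) * y := by
        rw [← pow_succ, Nat.sub_add_cancel hpf.out.one_lt.le]
      rw [h4]
      ring
    rw [h3]
    exact mul_mem (hmu e he) hy
  · intro θ hθ ι σ
    refine ⟨1, ⟨AlgEquiv.refl, RingEquiv.refl _, fun x => rfl, fun x => rfl⟩, fun x hx => ?_⟩
    rw [hfix σ x hx]
    rfl

end Pool.Agent.Helper88.Thin.BTC
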